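import Mathlib
import Pool.Agent.X197.LipTree3

namespace Pool.Agent.Results.MP_349e68_an.InfiniteBackwardOrbit

open Pool.Agent.X197.LipTree

/-- There are a rooted tree, a self-map of its vertices inducing a bounded composition operator on
the little Lipschitz space, a scalar of modulus at least one for which the multiple of the
composition operator is hypercyclic, and a vertex with `N_v` infinite. -/
theorem result : ∃ (V : Type) (T : RTree V) (φ : V → V) (c : ℂ), 1 ≤ ‖c‖ ∧
    T.BoundedOn (fun f v => f (φ v)) ∧ T.Hypercyclic (fun f v => c * f (φ v)) ∧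
    ∃ v, {n : ℕ | 1 ≤ n ∧ ∃ w, φ^[n] w = v}.Infinite :=
  ⟨Vt, T0, phi, 1, by simp, bounded, hypercyclic, z 0, infinite_backward⟩

end Pool.Agent.Results.MP_349e68_an.InfiniteBackwardOrbit
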